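import Pool.Agent.X157.H.Full

set_option autoImplicit false

/-!
# The Segre–Harbourne–Gimigliano–Hirschowitz conjecture: `n` equal multiplicities, double and simple
points

Let `w` be multiplicities at `r` points, all equal to `m ≥ 1` on a set `S` of `n` of the points and at
most `2` at the other points (so any number of double points and of simple points is added). Let
`n ≥ 37`, or `n = 13`, or `n = 21`, or `n ≥ 16` a square; or `n = 11` or `15` and at least one of the
other multiplicities is positive. Then for all points `P` outside one hypersurface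
`dim (d; w) = edim (d; w)` for all `d`, and `dim (d; v) = vdim (d; v)` for all `v ≤ w` if
`vdim (d; w) ≥ -1`.

Proof: adding simple points one reduces to systems with a unique member. If it is reduced, then the
points of multiplicity at most two impose independent conditions on the system with the other
conditions only, and that one is not special. If it is not reduced, it contains a symmetric curve
`A` twice; if `f = 2 A + B`, then `A² = χ (2 A + B) + χ (B) - 2 χ (A + B) ≤ 0` by induction, which
contradicts Nagata's inequality, unless `A` passes through the double points; then `2 A` is rigid, `A` is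
not special, and the numbers exclude this too.
-/

namespace Pool.Agent.Results.MP_6e81d8_ag.EqualAndDoublePoints

open MvPolynomial Pool.Agent.TH167 Pool.Agent.TH167.SH Pool.Agent.TH167.SHDefs Pool.Agent.X157.H

/-- The dimension of the linear system of the plane curves of degree `d` with multiplicities at
least `w i` at the points `P i`. -/
noncomputable def dimension {r : ℕ} (P : Fin r → Fin 2 → ℂ) (d : ℕ) (w : Fin r → ℕ) : ℤ :=
  (Module.finrank ℂ ↥(sys P d w) : ℤ) - 1

/-- The virtual dimension. -/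
def vdim {r : ℕ} (d : ℕ) (w : Fin r → ℕ) : ℤ :=
  ((d + 2).choose 2 : ℤ) - 1 - ∑ i, ((w i + 1).choose 2 : ℤ)

/-- On a set `S` of the points all multiplicities are `m ≥ 1`, at the other points they are at most
`2`; the number of the points of `S` is at least `37`, or `13`, or `21`, or a square and at least
`16`, or it is `11` or `15` and there is a point outside `S` with a positive multiplicity. -/
def EqualAndDouble {r : ℕ} (w : Fin r → ℕ) : Prop :=
  ∃ (S : Finset (Fin r)) (m : ℕ), 1 ≤ m ∧ (∀ i ∈ S, w i = m) ∧ (∀ i, i ∉ S → w i ≤ 2) ∧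
    (37 ≤ S.card ∨ S.card = 13 ∨ S.card = 21 ∨ (16 ≤ S.card ∧ IsSquare S.card) ∨
      ((S.card = 11 ∨ S.card = 15) ∧ ∃ i, i ∉ S ∧ 1 ≤ w i))

theorem result : ∀ (r : ℕ) (w : Fin r → ℕ), EqualAndDouble w →
    ∃ F : MvPolynomial (Fin r × Fin 2) ℂ, F ≠ 0 ∧ ∀ P : Fin r → Fin 2 → ℂ,
      eval (fun ij : Fin r × Fin 2 => P ij.1 ij.2) F ≠ 0 →
        (∀ d, dimension P d w = max (vdim d w) (-1)) ∧
        ∀ (d : ℕ) (v : Fin r → ℕ), (∀ i, v i ≤ w i) → -1 ≤ vdim d w →
          dimension P d v = vdim d v := by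
  intro r w ⟨S, m, hm, hwS, hw2, hn⟩
  have hn10 : 10 ≤ S.card := by omega
  have hall : ∃ F : MvPolynomial (Fin r × Fin 2) ℚ, F ≠ 0 ∧ ∀ P : Fin r → Fin 2 → ℂ,
      MvPolynomial.aeval (fun ij : Fin r × Fin 2 => P ij.1 ij.2) F ≠ 0 →
        ∀ d, Pool.Agent.H932R3.ExpDim ℂ w P d := by
    rcases hn with h | h | h | h | ⟨h, i, hi, hi1⟩
    · exact dim_all hn10 (good_of_uns (uns_of hn10 (Or.inl h))) hm rfl hwS hw2
        (Or.inl (uns_of hn10 (Or.inl h)))
    · exact dim_all hn10 (good_of_uns (uns_of hn10 (Or.inr (Or.inl h)))) hm rfl hwS hw2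
        (Or.inl (uns_of hn10 (Or.inr (Or.inl h))))
    · exact dim_all hn10 (good_of_uns (uns_of hn10 (Or.inr (Or.inr (Or.inl h))))) hm rfl hwS hw2
        (Or.inl (uns_of hn10 (Or.inr (Or.inr (Or.inl h)))))
    · exact dim_all hn10 (good_of_uns (uns_of hn10 (Or.inr (Or.inr (Or.inr h.2))))) hm rfl hwS hw2
        (Or.inl (uns_of hn10 (Or.inr (Or.inr (Or.inr h.2)))))
    · exact dim_all hn10 (good_eleven h) hm rfl hwS hw2 (Or.inr ⟨i, hi, hi1⟩)
  obtain ⟨F, hF, hF'⟩ := hall
  refine ⟨F.map (algebraMap ℚ ℂ), Pool.Agent.H932R3.map_ne_zero_of hF, fun P hP => ?_⟩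
  rw [MvPolynomial.eval_map] at hP
  have h0 := hF' P hP
  have conv : ∀ (d : ℕ) (u : Fin r → ℕ), Pool.Agent.H932R3.ExpDim ℂ u P d →
      dimension P d u = max (vdim d u) (-1) := by
    intro d u h
    have h1 : Module.finrank ℂ ↥(sys P d u) =
        Nat.choose (d + 2) 2 - ∑ i, Nat.choose (u i + 1) 2 := h
    have h2 : ∑ i, ((u i + 1).choose 2 : ℤ) = ((∑ i, Nat.choose (u i + 1) 2 : ℕ) : ℤ) := by
      push_cast
      rfl
    unfold dimension vdim
    rw [h1, h2]
    omega
  refine ⟨fun d => conv d w (h0 d), fun d v hv hd => ?_⟩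
  have h2 : ∀ u : Fin r → ℕ, ∑ i, ((u i + 1).choose 2 : ℤ) =
      ((∑ i, Nat.choose (u i + 1) 2 : ℕ) : ℤ) := fun u => by
    push_cast
    rfl
  have h3 : ∑ i, (w i + 1).choose 2 ≤ (d + 2).choose 2 := by
    unfold vdim at hd
    rw [h2] at hd
    omega
  have h4 : ∑ i, (v i + 1).choose 2 ≤ ∑ i, (w i + 1).choose 2 :=
    Finset.sum_le_sum fun i _ => Nat.choose_le_choose 2 (by have := hv i; omega)
  have h5 := conv d v (Pool.Agent.TH442.NF.exp_mono (h0 d) h3 hv)
  have h6 : -1 ≤ vdim d v := by
    unfold vdim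
    rw [h2]
    omega
  rw [h5, max_eq_left h6]

end Pool.Agent.Results.MP_6e81d8_ag.EqualAndDoublePoints
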