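import Mathlib
import Pool.Agent.X214.NV.Dom

set_option autoImplicit false

/-!
# The Segre–Harbourne–Gimigliano–Hirschowitz conjecture for near-uniform multiplicities

Let `v` take only the values `m`, `m + 1`, `m ≥ 1` arbitrary, on a set `S` of at least `36` of the
`r` points. Let the multiplicities `w` be at most `v` on `S`, and at most `1` at the other points.
If `w = v` on `S`, or `∑ (v i + 1).choose 2 ≤ (d + 2).choose 2` (sum over `S`), then for general points of the
complex projective plane `dim (d; w) = edim (d; w)`.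
-/

namespace Pool.Agent.Results.MP_6e81d8_ag.NearUniformExplicit

open MvPolynomial Pool.Agent.TH167.SHDefs Pool.Agent.X214.NV

/-- The dimension of the linear system of the plane curves of degree `d` with multiplicities at
least `w i` at the points `P i`. -/
noncomputable def dimension {n : ℕ} (P : Fin n → Fin 2 → ℂ) (d : ℕ) (w : Fin n → ℕ) : ℤ :=
  (Module.finrank ℂ ↥(sys P d w) : ℤ) - 1

/-- The virtual dimension. -/
def vdim {n : ℕ} (d : ℕ) (w : Fin n → ℕ) : ℤ :=
  ((d + 2).choose 2 : ℤ) - 1 - ∑ i, ((w i + 1).choose 2 : ℤ)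

/-- The property holds for all `n`-tuples of points outside some hypersurface. -/
def ForGeneral {n : ℕ} (p : (Fin n → Fin 2 → ℂ) → Prop) : Prop :=
  ∃ F : MvPolynomial (Fin n × Fin 2) ℂ, F ≠ 0 ∧ ∀ P : Fin n → Fin 2 → ℂ,
    eval (fun ij : Fin n × Fin 2 => P ij.1 ij.2) F ≠ 0 → p P

theorem result : ∀ (r d : ℕ) (w : Fin r → ℕ), Dominated d w →
    ForGeneral fun P => dimension P d w = max (vdim d w) (-1) := by
  intro r d w h
  obtain ⟨F, hF, hF'⟩ := dom_open h
  refine ⟨F.map (algebraMap ℚ ℂ), Pool.Agent.H932R3.map_ne_zero_of hF, fun P hP => ?_⟩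
  rw [MvPolynomial.eval_map] at hP
  have h1 : Module.finrank ℂ ↥(sys P d w) =
      Nat.choose (d + 2) 2 - ∑ i, Nat.choose (w i + 1) 2 := hF' (L := ℂ) P hP
  have h2 : ∑ i, ((w i + 1).choose 2 : ℤ) = ((∑ i, Nat.choose (w i + 1) 2 : ℕ) : ℤ) := by
    push_cast
    rfl
  unfold dimension vdim
  rw [h1, h2]
  omega

end Pool.Agent.Results.MP_6e81d8_ag.NearUniformExplicit
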