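import Pool.Agent.X157.W.Orth
import Pool.Agent.TH167.SH.Fam
import Pool.Agent.TH167.SH.Conv

set_option autoImplicit false

/-!
# The components which meet a linear system negatively are rigid

Let `D = (d; w)` be a class with a nonzero section at `s ≥ 4` very general points of the complex
projective plane.

* At most `s` irreducible curves `C` satisfy `D C < 0`.
* If `C` is such a curve and not a `(-1)`-curve, then its multiplicities are a function of those
  of `D`, except for at most one point: if `w i = w j` then `u i = u j`, for all `i, j` different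
  from one index. (For constant `w` these are the classical almost uniform curves of Nagata.)
* More generally, if `α`, `β` are real roots of the Weyl group with `D α = D β = 0`, then `C α = 0`
  or `C β = 0` if `α β = 0`, and one of `C α`, `C β`, `C (α + β)` is zero if `α β = 1`.
* If `w i + w j + w l ≤ d` for all different `i, j, l` (for instance `m₁ + m₂ + m₃ < d` as in Q1) and
  `D ^ 2 < 0`, then `D` is special, there is a curve `C` with `D C < 0`, and it is not a `(-1)`-curve.

So a counterexample to Q1 of negative self-intersection contains an irreducible curve which has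
almost the same symmetries as its own multiplicities. Proof: the classes of the irreducible
curves `C` with `D C < 0` and the class of a line are linearly independent (otherwise two disjoint
sums of such curves would be equal, and nef). If `D α = 0`, the reflection carries `C` to another
curve of this kind ON THE SAME surface, and four or six images under reflections are dependent.
-/

namespace Pool.Agent.Results.MP_6e81d8_ag.RigidNegativeComponents

open MvPolynomial Pool.Agent.TH167 Pool.Agent.TH167.SHDefs Pool.Agent.X157.W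

theorem pr_pts {s : ℕ} {i j : Fin s} (hij : i ≠ j) (d : ℕ) (w : Fin s → ℕ) :
    pr 0 (fun l => (if l = i then (1 : ℤ) else 0) - (if l = j then 1 else 0)) d w =
      (w j : ℤ) - w i := by
  classical
  unfold pr
  have h1 : ∀ l, ((if l = i then (1 : ℤ) else 0) - (if l = j then 1 else 0)) * (w l : ℤ) =
      (if l = i then (w i : ℤ) else 0) - (if l = j then (w j : ℤ) else 0) := by
    intro l
    by_cases c1 : l = i
    · subst c1
      by_cases c2 : l = j
      · exact absurd c2 hij
      · simp [c2]
    · by_cases c2 : l = j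
      · subst c2
        simp [c1]
      · simp [c1, c2]
  rw [Finset.sum_congr rfl fun l _ => h1 l, Finset.sum_sub_distrib,
    Finset.sum_ite_eq' Finset.univ i, Finset.sum_ite_eq' Finset.univ j,
    if_pos (Finset.mem_univ _), if_pos (Finset.mem_univ _)]
  ring

theorem bl_pts {s : ℕ} (i j k l : Fin s) :
    bl 0 (fun x => (if x = i then (1 : ℤ) else 0) - (if x = j then 1 else 0)) 0
      (fun x => (if x = k then (1 : ℤ) else 0) - (if x = l then 1 else 0)) =
      -((if i = k then (1 : ℤ) else 0) - (if i = l then 1 else 0) -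
        ((if j = k then 1 else 0) - (if j = l then 1 else 0))) := by
  classical
  unfold bl
  have h1 : ∀ x, ((if x = i then (1 : ℤ) else 0) - (if x = j then 1 else 0)) *
      ((if x = k then (1 : ℤ) else 0) - (if x = l then 1 else 0)) =
      (if x = i then ((if i = k then (1 : ℤ) else 0) - (if i = l then 1 else 0)) else 0) -
      (if x = j then ((if j = k then (1 : ℤ) else 0) - (if j = l then 1 else 0)) else 0) := by
    intro x
    by_cases c1 : x = i
    · subst c1
      by_cases c2 : x = j
      · subst c2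
        simp
      · simp [c2]
    · by_cases c2 : x = j
      · subst c2
        simp [c1]
      · simp [c1, c2]
  rw [Finset.sum_congr rfl fun x _ => h1 x, Finset.sum_sub_distrib,
    Finset.sum_ite_eq' Finset.univ i, Finset.sum_ite_eq' Finset.univ j,
    if_pos (Finset.mem_univ _), if_pos (Finset.mem_univ _)]
  ring

theorem result (r : ℕ) :
    ∃ Z : ℕ → MvPolynomial (Fin (r + 4) × Fin 2) ℂ, (∀ n, Z n ≠ 0) ∧
      ∀ P : Fin (r + 4) → Fin 2 → ℂ,
        (∀ n, MvPolynomial.eval (fun ij : Fin (r + 4) × Fin 2 => P ij.1 ij.2) (Z n) ≠ 0) →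
        ∀ (d : ℕ) (w : Fin (r + 4) → ℕ), sys P d w ≠ ⊥ →
          (∀ T : Finset (ℕ × (Fin (r + 4) → ℕ)),
            (∀ t ∈ T, inter d w t.1 t.2 < 0 ∧ ∃ C, Curve P C t.1 t.2) → T.card ≤ r + 4) ∧
          (∀ (C : MvPolynomial (Fin 3) ℂ) (e : ℕ) (u : Fin (r + 4) → ℕ), Curve P C e u →
            ¬ MinusOne P C e u → inter d w e u < 0 →
            (∃ I : Finset (Fin (r + 4)), I.card ≤ 1 ∧
              ∀ i j, i ∉ I → j ∉ I → w i = w j → u i = u j) ∧
            ∀ (a : ℤ) (b : Fin (r + 4) → ℤ) (a' : ℤ) (b' : Fin (r + 4) → ℤ),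
              Root a b → Root a' b' → a * d - ∑ i, b i * w i = 0 →
              a' * d - ∑ i, b' i * w i = 0 →
              (a * a' - ∑ i, b i * b' i = 0 →
                a * e - ∑ i, b i * u i = 0 ∨ a' * e - ∑ i, b' i * u i = 0) ∧
              (a * a' - ∑ i, b i * b' i = 1 →
                a * e - ∑ i, b i * u i = 0 ∨ a' * e - ∑ i, b' i * u i = 0 ∨
                  (a * e - ∑ i, b i * u i) + (a' * e - ∑ i, b' i * u i) = 0)) ∧
          ((∀ i j l, i ≠ j → i ≠ l → j ≠ l → w i + w j + w l ≤ d) → inter d w d w < 0 →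
            Special P d w ∧ ∃ (C : MvPolynomial (Fin 3) ℂ) (e : ℕ) (u : Fin (r + 4) → ℕ),
              Curve P C e u ∧ ¬ MinusOne P C e u ∧ inter d w e u < 0) := by
  classical
  obtain ⟨Z, hZ, h⟩ := SH.exists_fam (Fin (r + 4) × Fin 2)
  refine ⟨Z, hZ, fun P hP0 d w hsys => ?_⟩
  have hP : Gen P := (h _).1 hP0
  obtain ⟨F, hF, hF0⟩ := (Submodule.ne_bot_iff _).1 hsys
  rw [SH.sys_eq] at hF
  have hFm := (SH.mem_VS _ _ _ _).1 hF
  refine ⟨fun T hT => ?_, fun C e u hC hne hneg => ⟨?_, ?_⟩, fun hst hneg => ?_⟩
  · refine card_le hP hF0 hF T fun t ht => ?_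
    obtain ⟨h1, C, hC⟩ := hT t ht
    rw [SH.inter_eq] at h1
    exact ⟨⟨C, SH.curve_iff.1 hC⟩, h1⟩
  · have hIc : Ic P e u := ⟨C, SH.curve_iff.1 hC⟩
    have hne' : NotExc e u := by
      rintro ⟨h1, h2⟩
      apply hne
      refine ⟨hC, ?_, ?_⟩
      · rw [SH.inter_eq]
        exact h1
      · rw [SH.interK_eq, h2]
    rw [SH.inter_eq] at hneg
    -- two disjoint pairs
    have k1 : ∀ i j k l : Fin (r + 4), i ≠ j → k ≠ l → i ≠ k → i ≠ l → j ≠ k → j ≠ l →
        w i = w j → w k = w l → u i = u j ∨ u k = u l := by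
      intro i j k l hij hkl hik hil hjk hjl h1 h2
      have h3 := orth hP hF0 hF hIc hne' hneg (Root.pts i j hij) (Root.pts k l hkl)
        (by rw [pr_pts hij]; omega) (by rw [pr_pts hkl]; omega) (by
          rw [bl_pts, if_neg hik, if_neg hil, if_neg hjk, if_neg hjl]
          norm_num)
      rw [pr_pts hij, pr_pts hkl] at h3
      omega
    -- triangles
    have k2 : ∀ i j k : Fin (r + 4), i ≠ j → j ≠ k → i ≠ k → w i = w j → w j = w k →
        u i = u j ∨ u j = u k ∨ u i = u k := by
      intro i j k hij hjk hik h1 h2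
      have h3 := orth2 hP hF0 hF hIc hne' hneg (Root.pts i j hij) (Root.pts j k hjk)
        (by rw [pr_pts hij]; omega) (by rw [pr_pts hjk]; omega) (by
          rw [bl_pts, if_neg hij, if_neg hik, if_pos rfl, if_neg hjk]
          norm_num)
      rw [pr_pts hij, pr_pts hjk] at h3
      omega
    by_cases hE : ∀ i j, w i = w j → u i = u j
    · exact ⟨∅, by simp, fun i j _ _ h1 => hE i j h1⟩
    push Not at hE
    obtain ⟨i, j, hij1, hij2⟩ := hE
    have hij : i ≠ j := fun h => hij2 (by rw [h])
    by_cases hEi : ∀ k l, k ≠ i → l ≠ i → w k = w l → u k = u l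
    · refine ⟨{i}, by simp, fun k l hk hl h1 => hEi k l ?_ ?_ h1⟩
      · exact fun h => hk (Finset.mem_singleton.2 h)
      · exact fun h => hl (Finset.mem_singleton.2 h)
    push Not at hEi
    obtain ⟨k, l, hki, hli, hkl1, hkl2⟩ := hEi
    have hkl : k ≠ l := fun h => hkl2 (by rw [h])
    -- one of `k`, `l` is `j`
    obtain ⟨m, hmi, hmj, hm1, hm2⟩ : ∃ m, m ≠ i ∧ m ≠ j ∧ w j = w m ∧ u j ≠ u m := by
      by_cases h1 : k = j
      · subst h1
        exact ⟨l, hli, hkl.symm, hkl1, hkl2⟩
      · by_cases h2 : l = j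
        · subst h2
          exact ⟨k, hki, h1, hkl1.symm, hkl2.symm⟩
        · exfalso
          have h3 := k1 i j k l hij hkl (Ne.symm hki) (Ne.symm hli) (Ne.symm h1) (Ne.symm h2)
            hij1 hkl1
          rcases h3 with h3 | h3
          · exact hij2 h3
          · exact hkl2 h3
    by_cases hEj : ∀ k l, k ≠ j → l ≠ j → w k = w l → u k = u l
    · refine ⟨{j}, by simp, fun k l hk hl h1 => hEj k l ?_ ?_ h1⟩
      · exact fun h => hk (Finset.mem_singleton.2 h)
      · exact fun h => hl (Finset.mem_singleton.2 h)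
    exfalso
    push Not at hEj
    obtain ⟨k', l', hkj, hlj, hkl1', hkl2'⟩ := hEj
    have hkl' : k' ≠ l' := fun h => hkl2' (by rw [h])
    -- the pair `k', l'` meets `i, j` and `j, m`, so it is `i, m`
    have h4 : k' = i ∨ l' = i := by
      by_contra hcon
      push Not at hcon
      have h3 := k1 i j k' l' hij hkl' (Ne.symm hcon.1) (Ne.symm hcon.2) (Ne.symm hkj)
        (Ne.symm hlj) hij1 hkl1'
      rcases h3 with h3 | h3
      · exact hij2 h3
      · exact hkl2' h3
    have h5 : k' = m ∨ l' = m := by
      by_contra hcon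
      push Not at hcon
      have h3 := k1 j m k' l' (Ne.symm hmj) hkl' (Ne.symm hkj) (Ne.symm hlj) (Ne.symm hcon.1)
        (Ne.symm hcon.2) hm1 hkl1'
      rcases h3 with h3 | h3
      · exact hm2 h3
      · exact hkl2' h3
    have h6 : w i = w m ∧ u i ≠ u m := by
      rcases h4 with h4 | h4 <;> rcases h5 with h5 | h5
      · exact absurd (h5.symm.trans h4) hmi
      · exact ⟨by rw [← h4, ← h5]; exact hkl1', by rw [← h4, ← h5]; exact hkl2'⟩
      · exact ⟨by rw [← h4, ← h5]; exact hkl1'.symm, by rw [← h4, ← h5]; exact hkl2'.symm⟩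
      · exact absurd (h5.symm.trans h4) hmi
    rcases k2 i j m hij (Ne.symm hmj) (Ne.symm hmi) hij1 hm1 with h7 | h7 | h7
    · exact hij2 h7
    · exact hm2 h7
    · exact h6.2 h7
  · have hIc : Ic P e u := ⟨C, SH.curve_iff.1 hC⟩
    have hne' : NotExc e u := by
      rintro ⟨h1, h2⟩
      apply hne
      refine ⟨hC, ?_, ?_⟩
      · rw [SH.inter_eq]
        exact h1
      · rw [SH.interK_eq, h2]
    rw [SH.inter_eq] at hneg
    intro a b a' b' hα hβ h1 h2
    exact ⟨fun h3 => orth hP hF0 hF hIc hne' hneg hα hβ h1 h2 h3,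
      fun h3 => orth2 hP hF0 hF hIc hne' hneg hα hβ h1 h2 h3⟩
  · have hred : SH.Reduced d w := hst
    rw [SH.inter_eq] at hneg
    refine ⟨?_, ?_⟩
    · have hpos := TT.pos_of_mem hF hF0
      have hue : ∀ j, w j ≤ d := fun j => SH.van_le hF0 hFm.1 (hFm.2 j)
      have hkk : SH.kk d w < 0 := by
        by_contra hcon
        push Not at hcon
        have h1 := SH.red_ip hred hue (by
          unfold SH.kk at hcon
          have : ((∑ j, w j : ℕ) : ℤ) ≤ ((3 * d : ℕ) : ℤ) := by
            push_cast
            linarith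
          exact_mod_cast this)
        omega
      intro h1
      rw [SH.dimL_eq, SH.virtdim_eq] at h1
      have h2 := SH.two_chi d w
      rw [max_eq_right (by omega)] at h1
      omega
    · choose n hn using fun j => TT.exists_ord (p := P j) hF0 hFm.1
      have hwn : ∀ j, w j ≤ n j := by
        intro j
        by_contra hcon
        push Not at hcon
        exact (hn j).2 (SH.van_mono (by omega) (hFm.2 j))
      obtain ⟨e, u, G, a1, a2, a3, a4⟩ := exists_neg d F n hF0 hFm.1 hn (D := d) (v := w) (by
        unfold SH.ip at hneg ⊢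
        have h1 : ∑ j, (w j : ℤ) * w j ≤ ∑ j, (w j : ℤ) * n j :=
          Finset.sum_le_sum fun j _ => mul_le_mul_of_nonneg_left (by exact_mod_cast hwn j)
            (Int.natCast_nonneg _)
        linarith)
      refine ⟨G, e, u, SH.curve_iff.2 ⟨a1, a2, a3⟩, ?_, by rw [SH.inter_eq]; exact a4⟩
      rintro ⟨-, g2, g3⟩
      rw [SH.inter_eq] at g2
      rw [SH.interK_eq] at g3
      have h3 := std_exc hP hred e u ⟨G, a1, a2, a3⟩ g2 (by omega)
      omega

end Pool.Agent.Results.MP_6e81d8_ag.RigidNegativeComponents
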